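import Pool.Agent.Q62.AV.Stm

/-!
# Project AV of helper62, job V6 (concentrated vectors), by helper275
-/

set_option autoImplicit false

open MeasureTheory Filter Topology Set
open scoped ContDiff InnerProductSpace

namespace Pool.Agent.Q275.AV

open Pool.Agent.Q62.AV

/-- the kernel -/
noncomputable def Kr (σ t : ℝ) : ℝ := σ / (σ ^ 2 + t ^ 2)

lemma Kr_nonneg {σ : ℝ} (h : 0 < σ) (t : ℝ) : 0 ≤ Kr σ t := by
  unfold Kr
  positivity

lemma Kr_int (v4 : S_V4) {σ : ℝ} (h : 0 < σ) : IntegrableOn (Kr σ) (Ioi 0) := by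
  have h1 := v4 σ 0 h le_rfl
  simp only [mul_zero, Real.cos_zero, mul_one, neg_zero, Real.exp_zero] at h1
  refine Integrable.of_integral_ne_zero (f := fun t => σ / (σ ^ 2 + t ^ 2)) ?_
  rw [h1]
  positivity

/-- the sum of cosines -/
noncomputable def Ph (μ w : ℕ → ℝ) (t : ℝ) : ℝ := ∑' j, Real.cos (μ j * t) * w j

lemma Ph_cont {μ w : ℕ → ℝ} (hw : Summable fun j => |w j|) : Continuous (Ph μ w) := by
  refine continuous_tsum (fun j => by fun_prop) hw fun j t => ?_
  rw [norm_mul, Real.norm_eq_abs, Real.norm_eq_abs]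
  calc |Real.cos (μ j * t)| * |w j| ≤ 1 * |w j| :=
        mul_le_mul_of_nonneg_right (Real.abs_cos_le_one _) (abs_nonneg _)
    _ = |w j| := one_mul _

lemma hasSum_exp (v4 : S_V4) {μ w : ℕ → ℝ} (hμ : ∀ j, 0 ≤ μ j) (hw : Summable fun j => |w j|)
    {σ : ℝ} (h : 0 < σ) :
    HasSum (fun j => Real.exp (-(σ * μ j)) * w j)
      (2 / Real.pi * ∫ t in Ioi (0 : ℝ), Kr σ t * Ph μ w t) := by
  have hK := Kr_int v4 h
  have hF : ∀ j, Integrable (fun t => Kr σ t * (Real.cos (μ j * t) * w j))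
      (volume.restrict (Ioi 0)) := by
    intro j
    refine hK.mul_bdd (c := |w j|) (by fun_prop) (ae_of_all _ fun t => ?_)
    rw [norm_mul, Real.norm_eq_abs, Real.norm_eq_abs]
    calc |Real.cos (μ j * t)| * |w j| ≤ 1 * |w j| :=
          mul_le_mul_of_nonneg_right (Real.abs_cos_le_one _) (abs_nonneg _)
      _ = |w j| := one_mul _
  have hsum : Summable fun j => ∫ t in Ioi (0 : ℝ), ‖Kr σ t * (Real.cos (μ j * t) * w j)‖ := by
    refine Summable.of_nonneg_of_le (fun j => integral_nonneg fun t => norm_nonneg _)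
      (fun j => ?_) (hw.mul_left (∫ t in Ioi (0 : ℝ), Kr σ t))
    rw [← integral_mul_const]
    refine integral_mono (hF j).norm (hK.mul_const _) fun t => ?_
    change ‖Kr σ t * (Real.cos (μ j * t) * w j)‖ ≤ Kr σ t * |w j|
    rw [norm_mul, norm_mul, Real.norm_of_nonneg (Kr_nonneg h t), Real.norm_eq_abs,
      Real.norm_eq_abs]
    refine mul_le_mul_of_nonneg_left ?_ (Kr_nonneg h t)
    calc |Real.cos (μ j * t)| * |w j| ≤ 1 * |w j| :=
          mul_le_mul_of_nonneg_right (Real.abs_cos_le_one _) (abs_nonneg _)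
      _ = |w j| := one_mul _
  have h1 := hasSum_integral_of_summable_integral_norm hF hsum
  have h2 : ∀ j, ∫ t in Ioi (0 : ℝ), Kr σ t * (Real.cos (μ j * t) * w j) =
      Real.pi / 2 * (Real.exp (-(σ * μ j)) * w j) := by
    intro j
    have h3 := v4 σ (μ j) h (hμ j)
    rw [← mul_assoc, ← h3, ← integral_mul_const]
    refine integral_congr_ae (ae_of_all _ fun t => ?_)
    change Kr σ t * (Real.cos (μ j * t) * w j) = σ / (σ ^ 2 + t ^ 2) * Real.cos (t * μ j) * w j
    rw [mul_comm (μ j) t, ← mul_assoc]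
    rfl
  have h4 : (∫ t in Ioi (0 : ℝ), ∑' j, Kr σ t * (Real.cos (μ j * t) * w j)) =
      ∫ t in Ioi (0 : ℝ), Kr σ t * Ph μ w t := by
    refine integral_congr_ae (ae_of_all _ fun t => ?_)
    exact tsum_mul_left
  rw [h4] at h1
  have h5 := h1.mul_left (2 / Real.pi)
  refine h5.congr_fun fun j => ?_
  rw [h2 j]
  have := Real.pi_pos
  field_simp

theorem t_V6 (v0 : S_V0) (v3 : S_V3) (v4 : S_V4) (v5 : S_V5) : S_V6 := by
  intro n G G₀ hG hGb hG₀ hsub hne lam e hD
  obtain ⟨x₀, hx₀⟩ := hne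
  obtain ⟨R, hR, hRb⟩ := Metric.isOpen_iff.mp isOpen_interior x₀ hx₀
  have hRb' : Metric.ball x₀ R ⊆ G \ closure G₀ := hRb.trans interior_subset
  have hfar : ∀ x ∈ G₀, R ≤ dist x x₀ := by
    intro x hx
    by_contra hlt
    push Not at hlt
    exact (hRb' (Metric.mem_ball.mpr hlt)).2 (subset_closure hx)
  have hr : 0 < R / 2 := by positivity
  have hrR : R / 2 < R := by linarith
  have hmeas : MeasurableSet (Metric.ball x₀ (R / 2)) := Metric.isOpen_ball.measurableSet
  have hbG : Metric.ball x₀ (R / 2) ⊆ G := fun x hx =>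
    (hRb' (Metric.ball_subset_ball hrR.le hx)).1
  have hrestr : (volume.restrict G) (Metric.ball x₀ (R / 2)) = volume (Metric.ball x₀ (R / 2)) := by
    rw [Measure.restrict_apply hmeas, inter_eq_left.mpr hbG]
  have hfin : (volume.restrict G) (Metric.ball x₀ (R / 2)) ≠ ⊤ := by
    rw [hrestr]
    exact measure_ball_lt_top.ne
  set f : HG G := indicatorConstLp 2 hmeas hfin (1 : ℝ) with hf
  have hfae : ∀ᵐ x ∂(volume.restrict G), x ∉ Metric.ball x₀ (R / 2) → f x = 0 := by
    filter_upwards [indicatorConstLp_coeFn (p := 2) (hs := hmeas) (hμs := hfin) (c := (1 : ℝ))]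
      with x hx hxn
    rw [hf, hx, indicator_of_notMem hxn]
  have hf0 : f ≠ 0 := by
    intro h0
    have h1 : (f : HG G) =ᵐ[volume.restrict G] 0 := by
      rw [h0]
      exact Lp.coeFn_zero _ _ _
    have h2 : ∀ᵐ x ∂(volume.restrict G), x ∉ Metric.ball x₀ (R / 2) := by
      filter_upwards [h1, indicatorConstLp_coeFn (p := 2) (hs := hmeas) (hμs := hfin)
        (c := (1 : ℝ))] with x hx1 hx2 hx3
      rw [hf, hx2, indicator_of_mem hx3] at hx1
      exact one_ne_zero hx1
    rw [ae_iff] at h2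
    simp only [not_not, ofPred_mem_eq] at h2
    rw [hrestr] at h2
    exact (Metric.measure_ball_pos volume x₀ hr).ne' h2
  obtain ⟨j₀, hj₀⟩ : ∃ j, ⟪e j, f⟫_ℝ ≠ 0 := by
    by_contra hcon
    push Not at hcon
    refine hf0 (e.repr.injective ?_)
    ext j
    rw [map_zero, HilbertBasis.repr_apply_apply, hcon j]
    rfl
  refine ⟨j₀, fun C => ?_⟩
  have hd0 : 0 < √(1 + R ^ 2) - √(1 + (R / 2) ^ 2) := by
    rw [sub_pos]
    refine Real.sqrt_lt_sqrt (by positivity) ?_
    nlinarith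
  set d := √(1 + R ^ 2) - √(1 + (R / 2) ^ 2) with hd
  have hμ0 : 0 < √(lam j₀) := Real.sqrt_pos.mpr (hD.1 j₀)
  have hn0 : 0 < 1 + ‖f‖ := by positivity
  obtain ⟨N, c, r, hr0, hb, hC⟩ := v5 d (√(lam j₀)) (|C| * (1 + ‖f‖) / |⟪e j₀, f⟫_ℝ|) hd0 hμ0
  have hΦ : ∀ ρ : ℝ, 0 ≤ ρ → ∀ j, |Real.exp (-(ρ * √(lam j)))| ≤ 1 := by
    intro ρ hρ j
    rw [abs_of_pos (Real.exp_pos _), Real.exp_le_one_iff]
    have := mul_nonneg hρ (Real.sqrt_nonneg (lam j))
    linarith
  set z : HG G := (1 + ‖f‖)⁻¹ • ∑ k, c k • dg e (fun j => Real.exp (-(r k * √(lam j)))) f with hz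
  have hzj : ∀ j, ⟪e j, z⟫_ℝ = (1 + ‖f‖)⁻¹ *
      ∑ k, c k * (Real.exp (-(r k * √(lam j))) * ⟪e j, f⟫_ℝ) := by
    intro j
    rw [hz, inner_smul_right, inner_sum]
    congr 1
    refine Finset.sum_congr rfl fun k _ => ?_
    rw [inner_smul_right, (v0 e _ 1 (hΦ (r k) (hr0 k)) f).1 j]
  refine ⟨z, ?_, ?_⟩
  · have h1 : ⟪e j₀, z⟫_ℝ = (1 + ‖f‖)⁻¹ * (⟪e j₀, f⟫_ℝ *
        ∑ k, c k * Real.exp (-(√(lam j₀) * r k))) := by
      rw [hzj]
      congr 1
      rw [Finset.mul_sum]
      refine Finset.sum_congr rfl fun k _ => ?_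
      rw [mul_comm (r k) (√(lam j₀))]
      ring
    rw [h1, abs_mul, abs_mul, abs_of_pos (inv_pos.mpr hn0)]
    have h2 : 0 < |⟪e j₀, f⟫_ℝ| := abs_pos.mpr hj₀
    have h3 : |C| * (1 + ‖f‖) ≤ |⟪e j₀, f⟫_ℝ| * |∑ k, c k * Real.exp (-(√(lam j₀) * r k))| := by
      rw [div_le_iff₀ h2] at hC
      rw [mul_comm (|⟪e j₀, f⟫_ℝ|)]
      exact hC
    calc C ≤ |C| := le_abs_self C
      _ = (1 + ‖f‖)⁻¹ * (|C| * (1 + ‖f‖)) := by field_simp
      _ ≤ _ := mul_le_mul_of_nonneg_left h3 (inv_pos.mpr hn0).le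
  · intro s hs h hh1 hhsupp
    set w : ℕ → ℝ := fun j => ⟪e j, f⟫_ℝ * ⟪e j, h⟫_ℝ with hwdef
    have hw : Summable fun j => |w j| := ((v0 e (fun _ => 1) 1 (fun _ => by simp) f).2.2 h).1
    have hPh : ∀ t, Ph (fun j => √(lam j)) w t =
        ⟪dg e (fun j => Real.cos (√(lam j) * t)) f, h⟫_ℝ := by
      intro t
      rw [((v0 e _ 1 (fun j => Real.abs_cos_le_one _) f).2.2 h).2]
      unfold Ph
      refine tsum_congr fun j => ?_
      rw [hwdef]
      ring
    have hPh1 : ∀ t, |Ph (fun j => √(lam j)) w t| ≤ ‖f‖ := by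
      intro t
      rw [hPh]
      refine (abs_real_inner_le_norm _ _).trans ?_
      have h1 := (v0 e (fun j => Real.cos (√(lam j) * t)) 1 (fun j => Real.abs_cos_le_one _) f).2.1
      rw [one_mul] at h1
      calc _ ≤ ‖f‖ * 1 := mul_le_mul h1 hh1 (norm_nonneg _) (norm_nonneg _)
        _ = ‖f‖ := mul_one _
    have hPh0 : ∀ t, 0 ≤ t → t < d → Ph (fun j => √(lam j)) w t = 0 := by
      intro t ht htd
      rw [hPh, L2.inner_def]
      have h1 := v3 G G₀ hG hGb hG₀.measurableSet hsub lam e hD x₀ (R / 2) R hr hrR hfar f hfae t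
        ht htd
      refine integral_eq_zero_of_ae ?_
      filter_upwards [h1, hhsupp] with x hx1 hx2
      by_cases hx : x ∈ G₀
      · rw [hx1 hx, inner_zero_left]
        rfl
      · rw [hx2 hx, inner_zero_right]
        rfl
    -- positive `s`
    have main : ∀ s : ℝ, 0 < s → HasSum
        (fun j => Real.exp (-(s * √(lam j))) * ⟪e j, z⟫_ℝ * ⟪e j, h⟫_ℝ)
        ((1 + ‖f‖)⁻¹ * (2 / Real.pi * ∫ t in Ioi (0 : ℝ), (∑ k, c k * Kr (s + r k) t) *
          Ph (fun j => √(lam j)) w t)) := by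
      intro s hs
      have hpos : ∀ k, 0 < s + r k := fun k => by linarith [hr0 k]
      have h1 : ∀ k, HasSum (fun j => Real.exp (-((s + r k) * √(lam j))) * w j)
          (2 / Real.pi * ∫ t in Ioi (0 : ℝ), Kr (s + r k) t * Ph (fun j => √(lam j)) w t) :=
        fun k => hasSum_exp v4 (fun j => Real.sqrt_nonneg _) hw (hpos k)
      have h2 := (hasSum_sum fun k (_ : k ∈ Finset.univ) => (h1 k).mul_left (c k)).mul_left
        ((1 + ‖f‖)⁻¹)
      have h3 : ∑ k, c k * (2 / Real.pi * ∫ t in Ioi (0 : ℝ), Kr (s + r k) t *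
          Ph (fun j => √(lam j)) w t) = 2 / Real.pi * ∫ t in Ioi (0 : ℝ),
          (∑ k, c k * Kr (s + r k) t) * Ph (fun j => √(lam j)) w t := by
        have h4 : ∀ k, Integrable (fun t => c k * Kr (s + r k) t * Ph (fun j => √(lam j)) w t)
            (volume.restrict (Ioi 0)) := fun k =>
          ((Kr_int v4 (hpos k)).const_mul (c k)).mul_bdd (c := ‖f‖)
            (Ph_cont hw).aestronglyMeasurable (ae_of_all _ fun t => by
              rw [Real.norm_eq_abs]
              exact hPh1 t)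
        have h5 : (∫ t in Ioi (0 : ℝ), (∑ k, c k * Kr (s + r k) t) *
            Ph (fun j => √(lam j)) w t) = ∑ k, ∫ t in Ioi (0 : ℝ), c k * Kr (s + r k) t *
            Ph (fun j => √(lam j)) w t := by
          rw [← integral_finsetSum _ fun k _ => h4 k]
          refine integral_congr_ae (ae_of_all _ fun t => ?_)
          exact Finset.sum_mul _ _ _
        rw [h5, Finset.mul_sum]
        refine Finset.sum_congr rfl fun k _ => ?_
        have h6 : (∫ t in Ioi (0 : ℝ), c k * Kr (s + r k) t * Ph (fun j => √(lam j)) w t) =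
            c k * ∫ t in Ioi (0 : ℝ), Kr (s + r k) t * Ph (fun j => √(lam j)) w t := by
          rw [← integral_const_mul]
          refine integral_congr_ae (ae_of_all _ fun t => ?_)
          exact mul_assoc _ _ _
        rw [h6]
        ring
      rw [h3] at h2
      refine h2.congr_fun fun j => ?_
      rw [hzj, hwdef]
      have h7 : ∀ k, Real.exp (-((s + r k) * √(lam j))) =
          Real.exp (-(s * √(lam j))) * Real.exp (-(r k * √(lam j))) := fun k => by
        rw [← Real.exp_add]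
        congr 1
        ring
      simp only [h7, Finset.mul_sum, Finset.sum_mul]
      refine Finset.sum_congr rfl fun k _ => ?_
      ring
    have mainb : ∀ s : ℝ, 0 < s →
        |∑' j, Real.exp (-(s * √(lam j))) * ⟪e j, z⟫_ℝ * ⟪e j, h⟫_ℝ| ≤ 1 := by
      intro s hs
      rw [(main s hs).tsum_eq]
      have hpos : ∀ k, 0 < s + r k := fun k => by linarith [hr0 k]
      have hKi : IntegrableOn (fun t => ∑ k, c k * Kr (s + r k) t) (Ioi 0) :=
        integrable_finsetSum _ fun k _ => (Kr_int v4 (hpos k)).const_mul (c k)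
      have h1 : (∫ t in Ioi (0 : ℝ), (∑ k, c k * Kr (s + r k) t) *
          Ph (fun j => √(lam j)) w t) = ∫ t in Ioi d, (∑ k, c k * Kr (s + r k) t) *
          Ph (fun j => √(lam j)) w t := by
        have h0 : (∫ t in Ici d, (∑ k, c k * Kr (s + r k) t) * Ph (fun j => √(lam j)) w t) =
            ∫ t in Ioi d, (∑ k, c k * Kr (s + r k) t) * Ph (fun j => √(lam j)) w t :=
          integral_Ici_eq_integral_Ioi
        rw [← h0]
        refine setIntegral_eq_of_subset_of_forall_sdiff_eq_zero measurableSet_Ioi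
          (fun t (ht : d ≤ t) => lt_of_lt_of_le hd0 ht) fun t ht => ?_
        have ht1 : 0 < t := ht.1
        have ht2 : t < d := not_le.mp ht.2
        rw [hPh0 t ht1.le ht2, mul_zero]
      have h2 : |∫ t in Ioi d, (∑ k, c k * Kr (s + r k) t) * Ph (fun j => √(lam j)) w t| ≤
          ‖f‖ := by
        have hKd : IntegrableOn (fun t => ∑ k, c k * Kr (s + r k) t) (Ioi d) :=
          hKi.mono_set (Ioi_subset_Ioi hd0.le)
        have h3 := norm_integral_le_of_norm_le (μ := volume.restrict (Ioi d))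
          (f := fun t => (∑ k, c k * Kr (s + r k) t) * Ph (fun j => √(lam j)) w t)
          (g := fun t => |∑ k, c k * Kr (s + r k) t| * ‖f‖) (hKd.abs.mul_const _)
          (ae_of_all _ fun t => by
            rw [norm_mul, Real.norm_eq_abs, Real.norm_eq_abs]
            exact mul_le_mul_of_nonneg_left (hPh1 t) (abs_nonneg _))
        rw [Real.norm_eq_abs] at h3
        refine h3.trans ?_
        rw [integral_mul_const]
        have h4 := hb s hs.le
        calc _ ≤ 1 * ‖f‖ := mul_le_mul_of_nonneg_right h4 (norm_nonneg _)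
          _ = ‖f‖ := one_mul _
      rw [h1, abs_mul, abs_mul, abs_of_pos (inv_pos.mpr hn0), abs_of_pos (by positivity)]
      have h5 : 2 / Real.pi ≤ 1 := by
        rw [div_le_one Real.pi_pos]
        exact Real.two_le_pi
      calc (1 + ‖f‖)⁻¹ * (2 / Real.pi * |∫ t in Ioi d, (∑ k, c k * Kr (s + r k) t) *
            Ph (fun j => √(lam j)) w t|) ≤ (1 + ‖f‖)⁻¹ * (1 * ‖f‖) := by
            refine mul_le_mul_of_nonneg_left ?_ (inv_pos.mpr hn0).le
            exact mul_le_mul h5 h2 (abs_nonneg _) zero_le_one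
        _ ≤ 1 := by
            rw [one_mul, inv_mul_le_iff₀ hn0, mul_one]
            linarith
    rcases hs.lt_or_eq with h0 | h0
    · exact mainb s h0
    · rw [← h0]
      have hbs : Summable fun j => |⟪e j, z⟫_ℝ * ⟪e j, h⟫_ℝ| :=
        ((v0 e (fun _ => 1) 1 (fun _ => by simp) z).2.2 h).1
      have h1 : Tendsto (fun s : ℝ => ∑' j, Real.exp (-(s * √(lam j))) * ⟪e j, z⟫_ℝ * ⟪e j, h⟫_ℝ)
          (𝓝[>] 0) (𝓝 (∑' j, Real.exp (-(0 * √(lam j))) * ⟪e j, z⟫_ℝ * ⟪e j, h⟫_ℝ)) := by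
        refine tendsto_tsum_of_dominated_convergence hbs (fun j => ?_) ?_
        · refine Tendsto.mono_left ?_ nhdsWithin_le_nhds
          have hc : Continuous fun s : ℝ =>
              Real.exp (-(s * √(lam j))) * ⟪e j, z⟫_ℝ * ⟪e j, h⟫_ℝ := by fun_prop
          exact hc.tendsto 0
        · filter_upwards [self_mem_nhdsWithin] with s hs' j
          rw [mul_assoc, norm_mul, Real.norm_eq_abs, Real.norm_eq_abs]
          calc _ ≤ 1 * |⟪e j, z⟫_ℝ * ⟪e j, h⟫_ℝ| :=
                mul_le_mul_of_nonneg_right (hΦ s (le_of_lt hs') j) (abs_nonneg _)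
            _ = _ := one_mul _
      refine le_of_tendsto h1.abs ?_
      filter_upwards [self_mem_nhdsWithin] with s hs'
      exact mainb s hs'

end Pool.Agent.Q275.AV
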